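import Pool.Agent.V5helper57.NGen.Tot

/-!
# The general model over a number field
-/

set_option autoImplicit false

namespace Pool.Agent.V5helper57.NGen

open Finset Filter NumberField IsDedekindDomain Q282.NF Pool.Agent.Y722.HS
open Pool.Agent.H921R2.TatePole (below deg nm nm_eq)
open Pool.Agent.X280.BP (EM_sub' EM_const' EM_mul' EM_abs_le summable_three vv vv_eq LL LL_nonneg LL_mono LL_Lg Lg SS Sys)
open Pool.Agent.V5helper57.Win (Ico_prime_split LL_split Model)
open Pool.Agent.V5helper57.NFld (prm prm_coe Fb EM_sum2 fiber_bd nu_fiber PP_eq LL_rt nu_LL)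

variable {K : Type} [Field K] [NumberField K] {m : ℕ} {V : HeightOneSpectrum (𝓞 K) → (Fin m → 𝓞 K) → ℝ} {A κ C : ℝ} {p0 : ℕ}

/-- The sum of the local values over the primes of norm at most `X`. -/
noncomputable def SV (V : HeightOneSpectrum (𝓞 K) → (Fin m → 𝓞 K) → ℝ) (t : Fin m → 𝓞 K) (X : ℕ) : ℝ :=
  ∑ᶠ v ∈ {v : HeightOneSpectrum (𝓞 K) | Ideal.absNorm v.asIdeal ≤ X}, V v t

/-- The values at the primes of degree `f` over `p`. -/
noncomputable def hd (V : HeightOneSpectrum (𝓞 K) → (Fin m → 𝓞 K) → ℝ) (f p : ℕ) (t : Fin m → 𝓞 K) : ℝ :=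
  if hp : p.Prime then ∑ v : Fb K (prm p hp), if deg v.1 = f then V v.1 t else 0 else 0

theorem SV_eq (V : HeightOneSpectrum (𝓞 K) → (Fin m → 𝓞 K) → ℝ) (t : Fin m → 𝓞 K) (X : ℕ) :
    SV V t X = ∑ f ∈ Icc 1 (Module.finrank ℚ K), ∑ p ∈ Q282.BP.PP (rt f X), hd V f p t := by
  classical
  obtain ⟨S, hS⟩ : ∃ S : Finset (HeightOneSpectrum (𝓞 K)), S = (fin_le (K := K) X).toFinset := ⟨_, rfl⟩
  have hmem : ∀ v, v ∈ S ↔ Ideal.absNorm v.asIdeal ≤ X := by
    intro v
    rw [hS, Set.Finite.mem_toFinset, Set.mem_ofPred_eq]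
  have h2 : SV V t X = ∑ v ∈ S, V v t := by
    unfold SV
    refine finsum_mem_eq_sum_of_inter_support_eq _ ?_
    congr 1
    ext v
    rw [Set.mem_ofPred_eq, mem_coe, hmem]
  have h3' : ∀ (f : ℕ) (p : Nat.Primes), (p : ℕ) ^ f ≤ X →
      (∑ v : Fb K p, if deg v.1 = f then V v.1 t else 0) = ∑ v ∈ S, if deg v = f ∧ below v = p then V v t else 0 := by
    intro f p hpX
    rw [← sum_filter, ← sum_filter]
    refine sum_bij (fun v _ => v.1) ?_ ?_ ?_ ?_
    · rintro ⟨v, hv⟩ h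
      rw [mem_filter] at h ⊢
      refine ⟨?_, h.2, hv⟩
      have h5 : deg v = f := h.2
      rw [hmem, norm_eq, hv, h5]
      exact hpX
    · rintro ⟨v, _⟩ _ ⟨w, _⟩ _ h
      exact Subtype.ext h
    · intro v hv
      rw [mem_filter] at hv
      refine ⟨⟨v, hv.2.2⟩, ?_, rfl⟩
      rw [mem_filter]
      exact ⟨mem_univ _, hv.2.1⟩
    · intro v _
      rfl
  have h3 : ∀ f p : ℕ, 1 ≤ f → p ∈ Q282.BP.PP (rt f X) → hd V f p t = ∑ v ∈ S, if deg v = f ∧ (below v : ℕ) = p then V v t else 0 := by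
    intro f p hf hp
    have hpp : p.Prime := (mem_filter.1 hp).2
    have hpX : p ^ f ≤ X := (le_rt hf).1 (mem_Icc.1 (mem_filter.1 hp).1).2
    unfold hd
    rw [dif_pos hpp, h3' f (prm p hpp) hpX]
    refine sum_congr rfl fun v _ => ?_
    have h5 : below v = prm p hpp ↔ (below v : ℕ) = p := ⟨fun h => by rw [h]; rfl, fun h => Subtype.ext h⟩
    simp only [h5]
  rw [h2, sum_congr rfl fun f hf => sum_congr rfl fun p hp => h3 f p (mem_Icc.1 hf).1 hp]
  have h4 : ∀ f ∈ Icc 1 (Module.finrank ℚ K), ∑ p ∈ Q282.BP.PP (rt f X), ∑ v ∈ S, (if deg v = f ∧ (below v : ℕ) = p then V v t else 0) =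
      ∑ v ∈ S, if deg v = f then V v t else 0 := by
    intro f hf
    rw [sum_comm]
    refine sum_congr rfl fun v hv => ?_
    by_cases hdf : deg v = f
    · rw [if_pos hdf, sum_eq_single (below v : ℕ)]
      · rw [if_pos ⟨hdf, rfl⟩]
      · intro p _ hne
        rw [if_neg]
        rintro ⟨-, h⟩
        exact hne h.symm
      · intro h
        exfalso
        apply h
        have h5 : (below v : ℕ) ^ f ≤ X := by
          have := (hmem v).1 hv
          rw [norm_eq, hdf] at this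
          exact this
        unfold Q282.BP.PP
        rw [mem_filter, mem_Icc]
        exact ⟨⟨(below v).prop.one_lt.le, (le_rt (mem_Icc.1 hf).1).2 h5⟩, (below v).prop⟩
    · rw [if_neg hdf]
      refine sum_eq_zero fun p _ => ?_
      rw [if_neg]
      rintro ⟨h, -⟩
      exact hdf h
  rw [sum_congr rfl h4, sum_comm]
  refine sum_congr rfl fun v _ => ?_
  rw [sum_ite_eq, if_pos]
  rw [mem_Icc]
  exact ⟨(nm_eq v).2.1, deg_le v⟩

/-- The sum over the degrees. -/
theorem hT_red (L : Loc K m V A κ C p0) {d : ℕ} (b : Fin d → 𝓞 K) {p : ℕ} (hp : p.Prime) (c : Fin m × Fin d → ℤ) :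
    hT V b p (red p c) = ∑ f ∈ Icc 1 (Module.finrank ℚ K), hd V f p (combine b (fun i j => c (i, j))) := by
  classical
  unfold hd
  simp only [dif_pos hp]
  rw [sum_comm]
  unfold hT
  rw [dif_pos hp]
  refine sum_congr rfl fun v _ => ?_
  have hvp : (below v.1 : ℕ) = p := by rw [v.2]; rfl
  rw [XX_red L b v.1 hvp c, sum_ite_eq, if_pos]
  rw [mem_Icc]
  exact ⟨(nm_eq v.1).2.1, deg_le v.1⟩

/-- The primes of higher degree. -/
theorem hd_le2 (L : Loc K m V A κ C p0) {f : ℕ} (hf : 2 ≤ f) {p : ℕ} (hp : p.Prime) (t : Fin m → 𝓞 K) :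
    |hd V f p t| ≤ Module.finrank ℚ K * (A / p) := by
  have hA0 := L.A0
  unfold hd
  rw [dif_pos hp]
  have hp0 : (0 : ℝ) < p := by exact_mod_cast hp.pos
  have hp1 : (1 : ℝ) ≤ p := by exact_mod_cast hp.one_le
  refine fiber_bd (prm p hp) _ (by positivity) fun v => ?_
  split_ifs with h
  · refine (L.bd v.1 t).trans ?_
    have hvp : (below v.1 : ℕ) = p := by rw [v.2]; rfl
    refine div_le_div_of_nonneg_left hA0 hp0 ?_
    apply Real.le_sqrt_of_sq_le
    rw [norm_eq, hvp, h]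
    push_cast
    exact pow_le_pow_right₀ hp1 hf
  · rw [abs_zero]
    positivity

/-- **The model.** -/
theorem model (L : Loc K m V A κ C p0) {d : ℕ} (b : Fin d → 𝓞 K)
    (hb : ∀ x : 𝓞 K, ∃ a : Fin d → ℤ, x = ∑ j, (a j : 𝓞 K) * b j) :
    ∃ K0 K1 : ℝ, Model (ZT V b) (2 * A * Module.finrank ℚ K + 1) κ K0 K1
      (fun X c => SV V (combine b (fun i j => c (i, j))) X) := by
  classical
  have hA0 := L.A0
  obtain ⟨B, hB0, hB⟩ := T_moments L
  obtain ⟨M, hM0, hM⟩ := nu_LL K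
  obtain ⟨S, hS⟩ : ∃ S : ℝ, S = ∑' n : ℕ, 1 / ((n : ℝ) * √n) := ⟨_, rfl⟩
  have hS0 : 0 ≤ S := by rw [hS]; exact tsum_nonneg fun n => by positivity
  have hSle : ∀ s : Finset ℕ, ∑ p ∈ s, 1 / ((p : ℝ) * √p) ≤ S := fun s => by
    rw [hS]; exact summable_three.sum_le_tsum _ fun n _ => by positivity
  obtain ⟨D, hD⟩ : ∃ D : ℝ, D = Module.finrank ℚ K := ⟨_, rfl⟩
  have hD0 : 0 ≤ D := by
    rw [hD]
    positivity
  have hrt : ∀ f : ℕ, ∃ C : ℝ, 0 ≤ C ∧ (1 ≤ f → ∀ X : ℕ, LL (rt f X + 1) (X + 1) ≤ C) := by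
    intro f
    by_cases hf : 1 ≤ f
    · obtain ⟨C, h1, h2⟩ := LL_rt hf
      exact ⟨C, h1, fun _ => h2⟩
    · exact ⟨0, le_rfl, fun h => absurd h hf⟩
  choose Cf hCf0 hCf using hrt
  have hk0 : 0 ≤ |κ| := abs_nonneg κ
  have hmuLL : ∀ X : ℕ, |∑ p ∈ (Ico 0 (X + 1)).filter Nat.Prime, muT V b p - κ * LL 0 (X + 1)| ≤
      B * S + |κ| * M := by
    intro X
    have h1 : |∑ p ∈ (Ico 0 (X + 1)).filter Nat.Prime, muT V b p -
        κ * ∑ p ∈ (Ico 0 (X + 1)).filter Nat.Prime, nu K p / p| ≤ B * S := by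
      rw [mul_sum, ← sum_sub_distrib]
      refine (abs_sum_le_sum_abs _ _).trans ?_
      refine le_trans (sum_le_sum (g := fun p : ℕ => B * (1 / ((p : ℝ) * √p))) fun p hp => ?_) ?_
      · have hpp := (mem_filter.1 hp).2
        haveI : NeZero p := ⟨hpp.ne_zero⟩
        exact (hB _ b hb p hpp).1
      · rw [← mul_sum]
        exact mul_le_mul_of_nonneg_left (hSle _) hB0
    have h2 := hM X
    have h3 : |κ * (∑ p ∈ (Ico 0 (X + 1)).filter Nat.Prime, nu K p / p - LL 0 (X + 1))| ≤ |κ| * M := by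
      rw [abs_mul]
      exact mul_le_mul_of_nonneg_left h2 hk0
    have e : ∑ p ∈ (Ico 0 (X + 1)).filter Nat.Prime, muT V b p - κ * LL 0 (X + 1) =
        (∑ p ∈ (Ico 0 (X + 1)).filter Nat.Prime, muT V b p - κ * ∑ p ∈ (Ico 0 (X + 1)).filter Nat.Prime, nu K p / p) +
        κ * (∑ p ∈ (Ico 0 (X + 1)).filter Nat.Prime, nu K p / p - LL 0 (X + 1)) := by ring
    rw [e]
    exact (abs_add_le _ _).trans (add_le_add h1 h3)
  have hone : 1 ≤ 2 * A * (Module.finrank ℚ K : ℝ) + 1 := by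
    have : 0 ≤ 2 * A * (Module.finrank ℚ K : ℝ) := by positivity
    linarith
  refine ⟨B * S + |κ| * M + ∑ f ∈ Icc 1 (Module.finrank ℚ K), D * A * Cf f, B * S + M,
    { sys := ⟨hone, fun p hp c => ?_, fun p hp _ => ?_⟩
      K00 := ?_
      K10 := by positivity
      near := fun X c => ?_
      var := fun x => ?_ }⟩
  · have h1 := muT_le L b hp
    have h2 := hT_le L b hp c
    unfold ZT
    refine (abs_sub _ _).trans ((add_le_add h1 h2).trans ?_)
    rw [add_div]
    have h3 : 0 ≤ 1 / √(p : ℝ) := by positivity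
    have e : (Module.finrank ℚ K : ℝ) * (A / √p) + Module.finrank ℚ K * (A / √p) = 2 * A * Module.finrank ℚ K / √p := by ring
    rw [e]
    linarith
  · unfold ZT
    rw [EM_sub', EM_const', muT_eq, sub_self]
  · have h1 : 0 ≤ ∑ f ∈ Icc 1 (Module.finrank ℚ K), D * A * Cf f := sum_nonneg fun f _ => by
      have := hCf0 f
      positivity
    positivity
  · show |SV V (combine b (fun i j => c (i, j))) X + SS (ZT V b) 0 (X + 1) c - κ * LL 0 (X + 1)| ≤ _
    obtain ⟨t, ht⟩ : ∃ t, t = combine b (fun i j => c (i, j)) := ⟨_, rfl⟩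
    have h1 : SS (ZT V b) 0 (X + 1) c = ∑ p ∈ (Ico 0 (X + 1)).filter Nat.Prime, muT V b p -
        ∑ f ∈ Icc 1 (Module.finrank ℚ K), ∑ p ∈ (Ico 0 (X + 1)).filter Nat.Prime, hd V f p t := by
      unfold SS ZT
      rw [sum_sub_distrib, sum_comm]
      congr 1
      refine sum_congr rfl fun p hp => ?_
      rw [hT_red L b (mem_filter.1 hp).2 c, ht]
    have h2 : SV V t X = ∑ f ∈ Icc 1 (Module.finrank ℚ K),
        ∑ p ∈ (Ico 0 (rt f X + 1)).filter Nat.Prime, hd V f p t := by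
      rw [SV_eq]
      refine sum_congr rfl fun f _ => ?_
      rw [PP_eq]
    have h3 : ∀ f ∈ Icc 1 (Module.finrank ℚ K), |∑ p ∈ (Ico 0 (X + 1)).filter Nat.Prime, hd V f p t -
        ∑ p ∈ (Ico 0 (rt f X + 1)).filter Nat.Prime, hd V f p t| ≤ D * A * Cf f := by
      intro f hf
      have hf1 := (mem_Icc.1 hf).1
      have hrX : rt f X ≤ X := by
        have h1 : rt f X ^ f ≤ X := (le_rt hf1).1 le_rfl
        exact (Nat.le_self_pow (by omega) _).trans h1
      rw [Ico_prime_split _ (show rt f X + 1 ≤ X + 1 by omega), add_sub_cancel_left]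
      rcases hf1.eq_or_lt with h | h
      · have h4 : rt f X = X := by
          rw [← h]
          refine le_antisymm (by rw [← h] at hrX; exact hrX) ?_
          rw [le_rt le_rfl, pow_one]
        rw [h4, Ico_self, filter_empty, sum_empty, abs_zero]
        have := hCf0 f
        positivity
      · refine (abs_sum_le_sum_abs _ _).trans ?_
        refine le_trans (sum_le_sum (g := fun p : ℕ => D * A * (1 / (p : ℝ))) fun p hp => ?_) ?_
        · have h5 := hd_le2 L h (mem_filter.1 hp).2 t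
          rw [← hD] at h5
          refine h5.trans (le_of_eq ?_)
          ring
        · rw [← mul_sum]
          have h6 := hCf f hf1 X
          unfold LL at h6
          exact mul_le_mul_of_nonneg_left h6 (by positivity)
    rw [← ht, h1, h2]
    have e : ∑ f ∈ Icc 1 (Module.finrank ℚ K), ∑ p ∈ (Ico 0 (rt f X + 1)).filter Nat.Prime, hd V f p t +
        (∑ p ∈ (Ico 0 (X + 1)).filter Nat.Prime, muT V b p -
          ∑ f ∈ Icc 1 (Module.finrank ℚ K), ∑ p ∈ (Ico 0 (X + 1)).filter Nat.Prime, hd V f p t) -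
        κ * LL 0 (X + 1) =
        (∑ p ∈ (Ico 0 (X + 1)).filter Nat.Prime, muT V b p - κ * LL 0 (X + 1)) -
        ∑ f ∈ Icc 1 (Module.finrank ℚ K), (∑ p ∈ (Ico 0 (X + 1)).filter Nat.Prime, hd V f p t -
          ∑ p ∈ (Ico 0 (rt f X + 1)).filter Nat.Prime, hd V f p t) := by
      rw [sum_sub_distrib]
      ring
    rw [e]
    refine (abs_sub _ _).trans (add_le_add (hmuLL X) ?_)
    exact (abs_sum_le_sum_abs _ _).trans (sum_le_sum h3)
  · rcases Nat.eq_zero_or_pos x with rfl | hx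
    · simp [LL]
      positivity
    · obtain ⟨X, rfl⟩ : ∃ X, x = X + 1 := ⟨x - 1, by omega⟩
      have h1 : |∑ p ∈ (Ico 0 (X + 1)).filter Nat.Prime, vv (ZT V b) p -
          ∑ p ∈ (Ico 0 (X + 1)).filter Nat.Prime, nu K p / p| ≤ B * S := by
        rw [← sum_sub_distrib]
        refine (abs_sum_le_sum_abs _ _).trans ?_
        refine le_trans (sum_le_sum (g := fun p : ℕ => B * (1 / ((p : ℝ) * √p))) fun p hp => ?_) ?_
        · have hpp := (mem_filter.1 hp).2
          haveI : NeZero p := ⟨hpp.ne_zero⟩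
          rw [vv_eq]
          exact (hB _ b hb p hpp).2
        · rw [← mul_sum]
          exact mul_le_mul_of_nonneg_left (hSle _) hB0
      have h2 := hM X
      rw [abs_le] at h1 h2 ⊢
      constructor <;> linarith [h1.1, h1.2, h2.1, h2.2]

end Pool.Agent.V5helper57.NGen
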