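import Pool.Agent.V5helper57.NFld.Mod

/-!
# Local data over a number field: general form
-/

set_option autoImplicit false

namespace Pool.Agent.V5helper57.NGen

open Finset NumberField IsDedekindDomain Q282.NF Pool.Agent.Y722.HS
open Pool.Agent.H921R2.TatePole (below deg nm nm_eq)
open Pool.Agent.V5helper57.NFld (EM_surj EM_indep par par_int par_surj par_surj2 coprime_ne)

/-- Local data on the integral parameters: bounded, periodic, with the mean value `κ / N` and the second moment `1 / N`. -/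
structure Loc (K : Type) [Field K] [NumberField K] (m : ℕ) (V : HeightOneSpectrum (𝓞 K) → (Fin m → 𝓞 K) → ℝ)
    (A κ C : ℝ) (p0 : ℕ) : Prop where
  A0 : 0 ≤ A
  C0 : 0 ≤ C
  bd : ∀ v t, |V v t| ≤ A / √(Ideal.absNorm v.asIdeal)
  loc : ∀ v, ∃ (F : Type) (_ : Field F) (_ : Fintype F) (π : 𝓞 K →+* F) (G : (Fin m → F) → ℝ),
    Function.Surjective π ∧ (∀ x, π x = 0 ↔ x ∈ v.asIdeal) ∧ CharP F (below v : ℕ) ∧ Fintype.card F = Ideal.absNorm v.asIdeal ∧
    (∀ t, V v t = G (fun i => π (t i))) ∧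
    (p0 ≤ (below v : ℕ) →
      |(∑ x, G x) / Fintype.card (Fin m → F) - κ / Ideal.absNorm v.asIdeal| ≤
        C / ((Ideal.absNorm v.asIdeal : ℝ) * √(Ideal.absNorm v.asIdeal)) ∧
      |(∑ x, G x ^ 2) / Fintype.card (Fin m → F) - 1 / Ideal.absNorm v.asIdeal| ≤
        C / ((Ideal.absNorm v.asIdeal : ℝ) * √(Ideal.absNorm v.asIdeal)))

variable {K : Type} [Field K] [NumberField K] {m : ℕ} {V : HeightOneSpectrum (𝓞 K) → (Fin m → 𝓞 K) → ℝ} {A κ C : ℝ} {p0 : ℕ}

/-- The local value at `v` as a function of the residues of the coordinates. -/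
noncomputable def XX (V : HeightOneSpectrum (𝓞 K) → (Fin m → 𝓞 K) → ℝ) {d : ℕ} (b : Fin d → 𝓞 K) (p : ℕ)
    (v : HeightOneSpectrum (𝓞 K)) (u : Fin m × Fin d → ZMod p) : ℝ :=
  V v (combine b (fun i j => ((u (i, j)).val : ℤ)))

/-- The structure of the local values. -/
theorem XX_struct (L : Loc K m V A κ C p0) {d : ℕ} (b : Fin d → 𝓞 K) {p : ℕ} (v : HeightOneSpectrum (𝓞 K))
    (hvp : (below v : ℕ) = p) :
    ∃ (F : Type) (_ : Field F) (_ : Fintype F) (π : 𝓞 K →+* F) (_ : CharP F p) (G : (Fin m → F) → ℝ),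
      Function.Surjective π ∧ (∀ x, π x = 0 ↔ x ∈ v.asIdeal) ∧
      (∀ c : Fin m × Fin d → ℤ, V v (combine b (fun i j => c (i, j))) = G (par p π b (red p c))) ∧
      (∀ u, XX V b p v u = G (par p π b u)) ∧
      (p0 ≤ p →
        |(∑ x, G x) / Fintype.card (Fin m → F) - κ / Ideal.absNorm v.asIdeal| ≤
          C / ((Ideal.absNorm v.asIdeal : ℝ) * √(Ideal.absNorm v.asIdeal)) ∧
        |(∑ x, G x ^ 2) / Fintype.card (Fin m → F) - 1 / Ideal.absNorm v.asIdeal| ≤
          C / ((Ideal.absNorm v.asIdeal : ℝ) * √(Ideal.absNorm v.asIdeal))) := by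
  classical
  subst hvp
  obtain ⟨F, _, _, π, G, hπ, hker, hch, hcard, hval, hmom⟩ := L.loc v
  have h1 : ∀ c : Fin m × Fin d → ℤ, V v (combine b (fun i j => c (i, j))) =
        G (par (below v : ℕ) π b (red (below v : ℕ) c)) := by
    intro c
    rw [hval, par_int]
  refine ⟨F, inferInstance, inferInstance, π, hch, G, hπ, hker, h1, fun u => ?_, hmom⟩
  have h3 := h1 (fun ij => ((u ij).val : ℤ))
  unfold XX
  rw [h3]
  congr 2
  funext ij
  unfold red
  haveI : NeZero (below v : ℕ) := ⟨(below v).prop.ne_zero⟩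
  push_cast
  exact ZMod.natCast_zmod_val (u ij)

/-- Reduction of integral coordinates. -/
theorem XX_red (L : Loc K m V A κ C p0) {d : ℕ} (b : Fin d → 𝓞 K) {p : ℕ} (v : HeightOneSpectrum (𝓞 K)) (hvp : (below v : ℕ) = p)
    (c : Fin m × Fin d → ℤ) : XX V b p v (red p c) = V v (combine b (fun i j => c (i, j))) := by
  obtain ⟨F, _, _, π, _, G, _, _, h1, h3, _⟩ := XX_struct L b v hvp
  rw [h3, h1]

theorem XX_le (L : Loc K m V A κ C p0) {d : ℕ} (b : Fin d → 𝓞 K) {p : ℕ} (v : HeightOneSpectrum (𝓞 K)) (u : Fin m × Fin d → ZMod p) :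
    |XX V b p v u| ≤ A / √(Ideal.absNorm v.asIdeal) := L.bd v _

/-- The local values at different primes above `p` are independent. -/
theorem XX_indep (L : Loc K m V A κ C p0) {d : ℕ} (b : Fin d → 𝓞 K) (hb : ∀ x : 𝓞 K, ∃ a : Fin d → ℤ, x = ∑ j, (a j : 𝓞 K) * b j)
    {p : ℕ} [NeZero p] {v w : HeightOneSpectrum (𝓞 K)} (hvp : (below v : ℕ) = p) (hwp : (below w : ℕ) = p) (hne : v ≠ w) :
    EM p (fun u : Fin m × Fin d → ZMod p => XX V b p v u * XX V b p w u) = EM p (XX V b p v) * EM p (XX V b p w) := by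
  classical
  obtain ⟨F, _, _, π, _, G, hπ, hker, _, h3, _⟩ := XX_struct L b v hvp
  obtain ⟨F', _, _, π', _, G', hπ', hker', _, h3', _⟩ := XX_struct L b w hwp
  obtain ⟨e, f, hef, he, hf⟩ := coprime_ne hne
  have e1 : XX V b p v = fun u => G (par (m := m) p π b u) := funext h3
  have e2 : XX V b p w = fun u => G' (par (m := m) p π' b u) := funext h3'
  rw [e1, e2]
  exact EM_indep p _ _ (fun x y => par_surj2 p π hπ π' hπ'
    ⟨e, f, hef, (hker e).2 he, (hker' f).2 hf⟩ b hb x y) G G'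

/-- The two moments at a prime. -/
theorem XX_moments (L : Loc K m V A κ C p0) {v : HeightOneSpectrum (𝓞 K)}
    {p : ℕ} [NeZero p] (hvp : (below v : ℕ) = p) (hp0 : p0 ≤ p) {d : ℕ} (b : Fin d → 𝓞 K)
    (hb : ∀ x : 𝓞 K, ∃ a : Fin d → ℤ, x = ∑ j, (a j : 𝓞 K) * b j) :
    |EM p (XX V b p v) - κ / Ideal.absNorm v.asIdeal| ≤ C / ((Ideal.absNorm v.asIdeal : ℝ) * √(Ideal.absNorm v.asIdeal)) ∧
    |EM p (fun u => XX V b p v u ^ 2) - 1 / Ideal.absNorm v.asIdeal| ≤
      C / ((Ideal.absNorm v.asIdeal : ℝ) * √(Ideal.absNorm v.asIdeal)) := by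
  classical
  obtain ⟨F, _, _, π, _, G, hπ, hker, _, h3, hm⟩ := XX_struct L b v hvp
  obtain ⟨m1, m2⟩ := hm hp0
  have e1 : XX V b p v = fun u => G (par (m := m) p π b u) := funext h3
  have e2 : (fun u => XX V b p v u ^ 2) = fun u => (fun x => G x ^ 2) (par (m := m) p π b u) := by
    funext u
    rw [h3]
  have hs := par_surj (m := m) p π hπ b hb
  constructor
  · rw [e1, EM_surj p _ hs G]
    exact m1
  · have h9 := EM_surj p _ hs (fun x => G x ^ 2)
    rw [e2, h9]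
    exact m2

end Pool.Agent.V5helper57.NGen
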