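import Pool.Agent.V5helper57.NGen.Red

/-!
# The sums of the local data over the primes above `p`
-/

set_option autoImplicit false

namespace Pool.Agent.V5helper57.NGen

open Finset NumberField IsDedekindDomain Q282.NF Pool.Agent.Y722.HS
open Pool.Agent.H921R2.TatePole (below deg nm nm_eq)
open Pool.Agent.X280.BP (EM_sub' EM_const' EM_mul' EM_add' EM_abs_le EM_mono' summable_three vv vv_eq)
open Pool.Agent.V5helper57.NFld (prm prm_coe Fb EM_sum2 fiber_bd nu_fiber)

variable {K : Type} [Field K] [NumberField K] {m : ℕ} {V : HeightOneSpectrum (𝓞 K) → (Fin m → 𝓞 K) → ℝ} {A κ C : ℝ} {p0 : ℕ}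

/-- The sum of the local values over the primes above `p`. -/
noncomputable def hT (V : HeightOneSpectrum (𝓞 K) → (Fin m → 𝓞 K) → ℝ) {d : ℕ} (b : Fin d → 𝓞 K) (p : ℕ)
    (u : Fin m × Fin d → ZMod p) : ℝ :=
  if hp : p.Prime then ∑ v : Fb K (prm p hp), XX V b p v.1 u else 0

/-- Its mean. -/
noncomputable def muT (V : HeightOneSpectrum (𝓞 K) → (Fin m → 𝓞 K) → ℝ) {d : ℕ} (b : Fin d → 𝓞 K) (p : ℕ) : ℝ :=
  if h : p = 0 then 0 else (haveI : NeZero p := ⟨h⟩; EM p (hT V b p))

theorem muT_eq (V : HeightOneSpectrum (𝓞 K) → (Fin m → 𝓞 K) → ℝ) {d : ℕ} (b : Fin d → 𝓞 K) (p : ℕ) [NeZero p] :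
    muT V b p = EM p (hT V b p) := by
  unfold muT
  rw [dif_neg (NeZero.ne p)]

/-- The centred data. -/
noncomputable def ZT (V : HeightOneSpectrum (𝓞 K) → (Fin m → 𝓞 K) → ℝ) {d : ℕ} (b : Fin d → 𝓞 K) (p : ℕ)
    (u : Fin m × Fin d → ZMod p) : ℝ := muT V b p - hT V b p u

theorem XX_le' (L : Loc K m V A κ C p0) {d : ℕ} (b : Fin d → 𝓞 K) {p : ℕ} (hp : p.Prime) (v : HeightOneSpectrum (𝓞 K))
    (hvp : (below v : ℕ) = p) (u : Fin m × Fin d → ZMod p) : |XX V b p v u| ≤ A / √p := by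
  refine (XX_le L b v u).trans ?_
  have hp0 : (0 : ℝ) < p := by exact_mod_cast hp.pos
  refine div_le_div_of_nonneg_left L.A0 (Real.sqrt_pos.2 hp0) (Real.sqrt_le_sqrt ?_)
  rw [norm_eq, hvp]
  exact_mod_cast Nat.le_self_pow (nm_eq v).2.1.ne' p

theorem hT_le (L : Loc K m V A κ C p0) {d : ℕ} (b : Fin d → 𝓞 K) {p : ℕ} (hp : p.Prime) (u : Fin m × Fin d → ZMod p) :
    |hT V b p u| ≤ Module.finrank ℚ K * (A / √p) := by
  have hA := L.A0
  unfold hT
  rw [dif_pos hp]
  exact fiber_bd (prm p hp) _ (by positivity) fun v => XX_le' L b hp v.1 (by rw [v.2]; rfl) u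

theorem muT_le (L : Loc K m V A κ C p0) {d : ℕ} (b : Fin d → 𝓞 K) {p : ℕ} (hp : p.Prime) :
    |muT V b p| ≤ Module.finrank ℚ K * (A / √p) := by
  haveI : NeZero p := ⟨hp.ne_zero⟩
  rw [muT_eq]
  refine (EM_abs_le p _ (fun _ => Module.finrank ℚ K * (A / √p)) (fun u => hT_le L b hp u)).trans ?_
  rw [EM_const']

/-- The sum of the squares of independent variables. -/
theorem var_fiber (L : Loc K m V A κ C p0) {d : ℕ} (b : Fin d → 𝓞 K)
    (hb : ∀ x : 𝓞 K, ∃ a : Fin d → ℤ, x = ∑ j, (a j : 𝓞 K) * b j)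
    {p : ℕ} [NeZero p] (hp : p.Prime) : EM p (fun u => ZT V b p u ^ 2) =
      ∑ v : Fb K (prm p hp),
        (EM p (fun u => XX V b p v.1 u ^ 2) - EM p (XX V b p v.1) ^ 2) := by
  classical
  obtain ⟨M, hM⟩ : ∃ M : Fb K (prm p hp) → ℝ, M = fun v => EM p (XX V b p v.1) := ⟨_, rfl⟩
  have hmu : muT V b p = ∑ v, M v := by
    rw [muT_eq]
    have e : hT V b p = fun u => ∑ v : Fb K (prm p hp), XX V b p v.1 u := by
      funext u
      unfold hT
      rw [dif_pos hp]
    rw [e, EM_sum2, hM]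
  have e1 : (fun u => ZT V b p u ^ 2) = fun u => ∑ v : Fb K (prm p hp),
      ∑ w : Fb K (prm p hp),
        (XX V b p v.1 u * XX V b p w.1 u - M w * XX V b p v.1 u - (M v * XX V b p w.1 u - M v * M w)) := by
    funext u
    have h1 : ZT V b p u = ∑ v, (M v - XX V b p v.1 u) := by
      unfold ZT hT
      rw [dif_pos hp, hmu, Finset.sum_sub_distrib]
    rw [h1, sq, Finset.sum_mul_sum]
    refine sum_congr rfl fun v _ => sum_congr rfl fun w _ => ?_
    ring
  rw [e1, EM_sum2]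
  refine sum_congr rfl fun v _ => ?_
  rw [EM_sum2, Finset.sum_eq_single v]
  · have e2 : (fun u => XX V b p v.1 u * XX V b p v.1 u - M v * XX V b p v.1 u - (M v * XX V b p v.1 u - M v * M v)) =
        fun u => (fun u => XX V b p v.1 u ^ 2) u - (fun u => (2 * M v) * XX V b p v.1 u - M v * M v) u := by
      funext u
      ring
    rw [e2, EM_sub', EM_sub', EM_mul', EM_const', hM]
    ring
  · intro w _ hne
    have hind := XX_indep L b hb (p := p) (v := v.1) (w := w.1) (by rw [v.2]; rfl) (by rw [w.2]; rfl) (fun h => hne (Subtype.ext h.symm))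
    rw [EM_sub', EM_sub', EM_sub', EM_mul', EM_mul', EM_const', hind, hM]
    ring
  · intro h
    exact absurd (mem_univ v) h

/-- The terms of the mean and of the variance. -/
theorem term_bd {C p N κ : ℝ} (hC : 0 ≤ C) (hp : 1 ≤ p) {mm a : ℝ} (one : Prop) [Decidable one]
    (h1 : one → N = p) (h2 : ¬ one → p ^ 2 ≤ N) (hm : |mm - κ / N| ≤ C / (N * √N)) (ha : |a - 1 / N| ≤ C / (N * √N)) :
    |mm - (if one then κ / p else 0)| ≤ (C + |κ|) / (p * √p) ∧
    |a - mm ^ 2 - (if one then 1 / p else 0)| ≤ (C + 1 + (C + |κ|) ^ 2) / (p * √p) := by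
  have hk0 : 0 ≤ |κ| := abs_nonneg κ
  have hp0 : 0 < p := by linarith
  have hs0 : 0 < √p := Real.sqrt_pos.2 hp0
  have hs1 : 1 ≤ √p := Real.one_le_sqrt.2 hp
  have hss : √p * √p = p := Real.mul_self_sqrt hp0.le
  have hsp : √p ≤ p := by nlinarith
  by_cases h : one
  · rw [if_pos h, if_pos h]
    have hN := h1 h
    subst hN
    refine ⟨hm.trans (div_le_div_of_nonneg_right (by linarith) (by positivity)), ?_⟩
    have hm1 : |mm| ≤ (C + |κ|) / N := by
      have h3 : |mm| ≤ |mm - κ / N| + |κ / N| := by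
        have := abs_add_le (mm - κ / N) (κ / N)
        rwa [sub_add_cancel] at this
      rw [abs_div, abs_of_pos hp0] at h3
      have h4 : C / (N * √N) ≤ C / N := div_le_div_of_nonneg_left hC hp0 (by nlinarith)
      have e : (C + |κ|) / N = C / N + |κ| / N := by ring
      rw [e]
      linarith
    have hm2 : mm ^ 2 ≤ (C + |κ|) ^ 2 / (N * √N) := by
      calc mm ^ 2 = |mm| ^ 2 := (sq_abs mm).symm
        _ ≤ ((C + |κ|) / N) ^ 2 := pow_le_pow_left₀ (abs_nonneg _) hm1 2
        _ = (C + |κ|) ^ 2 / (N * N) := by rw [div_pow, sq N]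
        _ ≤ (C + |κ|) ^ 2 / (N * √N) := div_le_div_of_nonneg_left (by positivity) (by positivity) (by nlinarith)
    have e : a - mm ^ 2 - 1 / N = (a - 1 / N) - mm ^ 2 := by ring
    rw [e]
    refine (abs_sub _ _).trans ?_
    rw [abs_of_nonneg (sq_nonneg mm)]
    have e2 : (C + 1 + (C + |κ|) ^ 2) / (N * √N) = C / (N * √N) + 1 / (N * √N) + (C + |κ|) ^ 2 / (N * √N) := by ring
    have h6 : 0 ≤ 1 / (N * √N) := by positivity
    rw [e2]
    linarith
  · rw [if_neg h, if_neg h, sub_zero, sub_zero]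
    have hN := h2 h
    have hN0 : 0 < N := lt_of_lt_of_le (by positivity) hN
    have hN1 : 1 ≤ N := le_trans (by nlinarith) hN
    have hsN : 1 ≤ √N := Real.one_le_sqrt.2 hN1
    have hpN : 1 / N ≤ 1 / (p * √p) := by
      apply one_div_le_one_div_of_le (by positivity)
      nlinarith
    have h4 : C / (N * √N) ≤ C / N := div_le_div_of_nonneg_left hC hN0 (by nlinarith)
    have hm1 : |mm| ≤ (C + |κ|) / N := by
      have h3 : |mm| ≤ |mm - κ / N| + |κ / N| := by
        have := abs_add_le (mm - κ / N) (κ / N)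
        rwa [sub_add_cancel] at this
      rw [abs_div, abs_of_pos hN0] at h3
      have e : (C + |κ|) / N = C / N + |κ| / N := by ring
      rw [e]
      linarith
    have ha1 : |a| ≤ (C + 1) / N := by
      have h3 : |a| ≤ |a - 1 / N| + |1 / N| := by
        have := abs_add_le (a - 1 / N) (1 / N)
        rwa [sub_add_cancel] at this
      rw [abs_of_nonneg (by positivity : 0 ≤ 1 / N)] at h3
      have e : (C + 1) / N = C / N + 1 / N := by ring
      rw [e]
      linarith
    refine ⟨?_, ?_⟩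
    · calc |mm| ≤ (C + |κ|) / N := hm1
        _ = (C + |κ|) * (1 / N) := by ring
        _ ≤ (C + |κ|) * (1 / (p * √p)) := by gcongr
        _ = _ := by ring
    · refine (abs_sub _ _).trans ?_
      rw [abs_of_nonneg (sq_nonneg mm)]
      have hm2 : mm ^ 2 ≤ (C + |κ|) ^ 2 * (1 / (p * √p)) := by
        calc mm ^ 2 = |mm| ^ 2 := (sq_abs mm).symm
          _ ≤ ((C + |κ|) / N) ^ 2 := pow_le_pow_left₀ (abs_nonneg _) hm1 2
          _ = (C + |κ|) ^ 2 * (1 / N * (1 / N)) := by field_simp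
          _ ≤ (C + |κ|) ^ 2 * (1 / (p * √p) * 1) := by
              have : 1 / N ≤ 1 := by rw [div_le_one hN0]; exact hN1
              gcongr
          _ = _ := by ring
      have ha2 : |a| ≤ (C + 1) * (1 / (p * √p)) := by
        calc |a| ≤ (C + 1) / N := ha1
          _ = (C + 1) * (1 / N) := by ring
          _ ≤ _ := by gcongr
      have e : (C + 1 + (C + |κ|) ^ 2) / (p * √p) = (C + 1) * (1 / (p * √p)) + (C + |κ|) ^ 2 * (1 / (p * √p)) := by ring
      rw [e]
      linarith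

/-- **The mean and the variance of the local data.** -/
theorem T_moments (L : Loc K m V A κ C p0) : ∃ B : ℝ, 0 ≤ B ∧ ∀ (d : ℕ) (b : Fin d → 𝓞 K),
    (∀ x : 𝓞 K, ∃ a : Fin d → ℤ, x = ∑ j, (a j : 𝓞 K) * b j) → ∀ (p : ℕ) [NeZero p], p.Prime →
    |muT V b p - κ * (nu K p / p)| ≤ B * (1 / ((p : ℝ) * √p)) ∧
    |EM p (fun u => ZT V b p u ^ 2) - nu K p / p| ≤ B * (1 / ((p : ℝ) * √p)) := by
  classical
  have hC0 := L.C0
  have hA0 := L.A0
  obtain ⟨D, hD⟩ : ∃ D : ℝ, D = Module.finrank ℚ K := ⟨_, rfl⟩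
  have hD0 : 0 ≤ D := by rw [hD]; positivity
  have hk0 : 0 ≤ |κ| := abs_nonneg κ
  obtain ⟨P, hP⟩ : ∃ P : ℝ, P = (p0 : ℝ) + 1 := ⟨_, rfl⟩
  have hP1 : 1 ≤ P := by rw [hP]; have : (0 : ℝ) ≤ p0 := Nat.cast_nonneg _; linarith
  refine ⟨D * (C + |κ| + (C + 1 + (C + |κ|) ^ 2)) + P ^ 2 * (A * D + |κ| * D + D + 4 * (A * D) ^ 2), by positivity, ?_⟩
  intro d b hb p _ hp
  have hp0 : (0 : ℝ) < p := by exact_mod_cast hp.pos
  have hp1 : (1 : ℝ) ≤ p := by exact_mod_cast hp.one_le
  have hs0 : 0 < √(p : ℝ) := Real.sqrt_pos.2 hp0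
  have hs1 : 1 ≤ √(p : ℝ) := Real.one_le_sqrt.2 hp1
  have hnu : nu K p ≤ D := by
    have h1 : nu K p = (Pool.Agent.H921R2.TatePole.R K (prm p hp) : ℝ) := nu_eq (K := K) (prm p hp)
    rw [h1, hD]
    exact_mod_cast Pool.Agent.H921R2.TatePole.R_le (K := K) (prm p hp)
  have hnu0 : 0 ≤ nu K p := by unfold nu; positivity
  have hnup : 0 ≤ nu K p / p ∧ nu K p / p ≤ D := ⟨by positivity, by
    rw [div_le_iff₀ hp0]
    nlinarith⟩
  have hfrac0 : 0 ≤ 1 / ((p : ℝ) * √p) := by positivity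
  rcases lt_or_ge p p0 with h5 | h5
  · -- small primes
    have hp4 : (p : ℝ) ≤ P := by rw [hP]; exact_mod_cast (by omega : p ≤ p0 + 1)
    have hs2 : √(p : ℝ) ≤ P := by
      rw [Real.sqrt_le_iff]
      constructor <;> nlinarith
    have h8 : 1 ≤ P ^ 2 * (1 / ((p : ℝ) * √p)) := by
      rw [mul_one_div, le_div_iff₀ (by positivity)]
      nlinarith
    have hAs : A / √(p : ℝ) ≤ A := by
      rw [div_le_iff₀ hs0]
      nlinarith
    have hmu : |muT V b p| ≤ A * D := by
      have h1 := muT_le L b hp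
      rw [← hD] at h1
      refine h1.trans ?_
      nlinarith
    have hh : ∀ u, |hT V b p u| ≤ A * D := by
      intro u
      have h1 := hT_le L b hp u
      rw [← hD] at h1
      refine h1.trans ?_
      nlinarith
    have hZ : |EM p (fun u => ZT V b p u ^ 2)| ≤ 4 * (A * D) ^ 2 := by
      refine (EM_abs_le p _ (fun _ => 4 * (A * D) ^ 2) fun u => ?_).trans (by rw [EM_const'])
      rw [abs_of_nonneg (sq_nonneg _), ← sq_abs]
      have h1 : |ZT V b p u| ≤ 2 * (A * D) := by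
        unfold ZT
        refine (abs_sub _ _).trans ?_
        linarith [hh u]
      calc |ZT V b p u| ^ 2 ≤ (2 * (A * D)) ^ 2 := pow_le_pow_left₀ (abs_nonneg _) h1 2
        _ = 4 * (A * D) ^ 2 := by ring
    have hbig : ∀ z : ℝ, |z| ≤ A * D + |κ| * D + D + 4 * (A * D) ^ 2 →
        |z| ≤ (D * (C + |κ| + (C + 1 + (C + |κ|) ^ 2)) + P ^ 2 * (A * D + |κ| * D + D + 4 * (A * D) ^ 2)) *
          (1 / ((p : ℝ) * √p)) := by
      intro z hz
      have h9 : 0 ≤ A * D + |κ| * D + D + 4 * (A * D) ^ 2 := by positivity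
      have h10 : 0 ≤ D * (C + |κ| + (C + 1 + (C + |κ|) ^ 2)) := by positivity
      have h11 := mul_le_mul_of_nonneg_left h8 h9
      have h12 := mul_nonneg h10 hfrac0
      refine hz.trans ?_
      calc A * D + |κ| * D + D + 4 * (A * D) ^ 2 = (A * D + |κ| * D + D + 4 * (A * D) ^ 2) * 1 := by ring
        _ ≤ (A * D + |κ| * D + D + 4 * (A * D) ^ 2) * (P ^ 2 * (1 / ((p : ℝ) * √p))) := h11
        _ ≤ D * (C + |κ| + (C + 1 + (C + |κ|) ^ 2)) * (1 / ((p : ℝ) * √p)) +
            (A * D + |κ| * D + D + 4 * (A * D) ^ 2) * (P ^ 2 * (1 / ((p : ℝ) * √p))) := by linarith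
        _ = _ := by ring
    constructor
    · apply hbig
      refine (abs_sub _ _).trans ?_
      have : |κ * (nu K p / p)| ≤ |κ| * D := by
        rw [abs_mul, abs_of_nonneg hnup.1]
        exact mul_le_mul_of_nonneg_left hnup.2 hk0
      nlinarith [sq_nonneg (A * D)]
    · apply hbig
      refine (abs_sub _ _).trans ?_
      rw [abs_of_nonneg hnup.1]
      have := hnup.2
      have h20 : 0 ≤ A * D := by positivity
      have h21 : 0 ≤ |κ| * D := by positivity
      linarith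
  · -- large primes
    obtain ⟨M, hM⟩ : ∃ M : Fb K (prm p hp) → ℝ, M = fun v => EM p (XX V b p v.1) := ⟨_, rfl⟩
    have hmu : muT V b p = ∑ v, M v := by
      rw [muT_eq]
      have e : hT V b p = fun u => ∑ v : Fb K (prm p hp), XX V b p v.1 u := by
        funext u
        unfold hT
        rw [dif_pos hp]
      rw [e, EM_sum2, hM]
    have hterm : ∀ v : Fb K (prm p hp),
        |M v - (if deg v.1 = 1 then κ / p else 0)| ≤ (C + |κ|) / (p * √p) ∧
        |EM p (fun u => XX V b p v.1 u ^ 2) - M v ^ 2 - (if deg v.1 = 1 then 1 / (p : ℝ) else 0)| ≤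
          (C + 1 + (C + |κ|) ^ 2) / (p * √p) := by
      intro v
      have hvp : (below v.1 : ℕ) = p := by rw [v.2]; rfl
      obtain ⟨h1, h2⟩ := XX_moments L hvp h5 b hb
      have hN : (Ideal.absNorm v.1.asIdeal : ℝ) = (p : ℝ) ^ deg v.1 := by
        rw [norm_eq, hvp]
        push_cast
        rfl
      rw [hM]
      refine term_bd hC0 hp1 (deg v.1 = 1) (fun h => ?_) (fun h => ?_) h1 h2
      · rw [hN, h, pow_one]
      · rw [hN]
        have h3 := (nm_eq v.1).2.1
        exact pow_le_pow_right₀ hp1 (by omega)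
    have hP0 : 0 ≤ P ^ 2 * (A * D + |κ| * D + D + 4 * (A * D) ^ 2) := by positivity
    constructor
    · have e : muT V b p - κ * (nu K p / p) = ∑ v, (M v - (if deg v.1 = 1 then κ / p else 0)) := by
        rw [hmu, Finset.sum_sub_distrib, nu_fiber p hp]
        congr 1
        rw [← mul_div_assoc, Finset.mul_sum, Finset.sum_div]
        refine sum_congr rfl fun v _ => ?_
        split_ifs
        · ring
        · ring
      rw [e]
      refine (fiber_bd (prm p hp) _ (by positivity) fun v => (hterm v).1).trans ?_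
      rw [← hD]
      have e2 : D * ((C + |κ|) / ((p : ℝ) * √p)) = D * (C + |κ|) * (1 / ((p : ℝ) * √p)) := by ring
      rw [e2]
      apply mul_le_mul_of_nonneg_right _ hfrac0
      have : 0 ≤ D * (C + 1 + (C + |κ|) ^ 2) := by positivity
      nlinarith
    · have e : EM p (fun u => ZT V b p u ^ 2) - nu K p / p = ∑ v : Fb K (prm p hp),
          (EM p (fun u => XX V b p v.1 u ^ 2) - M v ^ 2 - (if deg v.1 = 1 then 1 / (p : ℝ) else 0)) := by
        rw [var_fiber L b hb hp, nu_fiber p hp, Finset.sum_div, ← Finset.sum_sub_distrib, hM]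
        refine sum_congr rfl fun v _ => ?_
        split_ifs
        · rfl
        · ring
      rw [e]
      refine (fiber_bd (prm p hp) _ (by positivity) fun v => (hterm v).2).trans ?_
      rw [← hD]
      have e2 : D * ((C + 1 + (C + |κ|) ^ 2) / ((p : ℝ) * √p)) = D * (C + 1 + (C + |κ|) ^ 2) * (1 / ((p : ℝ) * √p)) := by ring
      rw [e2]
      apply mul_le_mul_of_nonneg_right _ hfrac0
      have : 0 ≤ D * (C + |κ|) := by positivity
      nlinarith

end Pool.Agent.V5helper57.NGen
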